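import Pool.Agent.H595.Dens.AlgG

set_option autoImplicit false

/-!
# The density of the scales at which `ζ(3)` or `ζ(3) / π ^ 3` is near an algebraic number

At least one of the numbers `ζ(3)` and `ζ(3) / π ^ 3` is transcendental. More generally, let `z` be a real number which
has a transcendence measure `|P(z)| ≫ H ^ (-κ)` in each degree, for instance `z = π`, let `t ≠ 0` be any real number,
for instance `t = ζ(3)`, and let `K` be a finite set of at least two integers. We consider the numbers `t z ^ k`,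
`k ∈ K`. For a degree `d` and an exponent `w` we consider the scales `X` at which one of these numbers `y` is near an
algebraic number, that is, `|y - α| ≤ X ^ (-w)` for an algebraic number `α` of degree at most `d` and height at most
`X`. If one of the numbers is algebraic of degree at most `d` then all large scales have this property. We show that
there is a number `A`, which depends on `z`, `K` and `d` only, with the following property, with
`u = (A / d) ^ (1 / (|K| - 1))`: if none of the numbers is algebraic of degree at most `d` then the lower logarithmic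
density of the set of the scales is at most `max (A / w) ((A + (2 A - w) / (u - 1)) / w)`, which is less than `1` for
`w > A (1 + 1 / u)` and equal to `A / w` for `w ≥ 2 A`. So there is a zero-one law for each degree `d`, uniform in `t`,
and the numbers `ζ(3)` and `ζ(3) / π ^ 3` are both transcendental if and only if for each `d` the scales at which one
of them is near an algebraic number of degree at most `d` have lower density less than one, for some exponent `w`. The
order `1 / w` of the bound is right: for a dense set of positive real numbers `t` all the numbers `t z ^ k`, `k` an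
integer, are transcendental and the density is at least `2 / w` for all `w ≥ 2` and all `d`.

Method. Two approximations of different numbers give, by elimination, a polynomial in `z` with integer coefficients,
which is small; two approximations of the same number satisfy Liouville's inequality, and among `|K| + 1` consecutive
approximations there are two of the same number. The bound follows from these two inequalities by an argument on the
growth of the partial sums of the logarithms of the heights.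
-/

namespace Pool.Agent.Results.MP_e48a95_nt.DensityNearAlgebraic

open Filter MeasureTheory Real Polynomial

/-- a transcendence measure in each degree -/
def HasMeasures (z : ℝ) : Prop := ∀ r : ℕ, ∃ κ c : ℝ, 0 < c ∧ ∀ P : ℤ[X], P ≠ 0 → P.natDegree ≤ r →
  ∀ H : ℝ, 1 ≤ H → (∀ i, |(P.coeff i : ℝ)| ≤ H) → c * H ^ (-κ) ≤ |aeval z P|

/-- `y` is algebraic of degree at most `d` -/
def AlgebraicDeg (d : ℕ) (y : ℝ) : Prop := ∃ P : ℤ[X], P ≠ 0 ∧ P.natDegree ≤ d ∧ aeval y P = 0

/-- at the scale `X` the number `y` is near an algebraic number, with exponent `w`: the algebraic number `α` is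
a root of an irreducible integer polynomial of degree at most `d` with coefficients of absolute value at most `X` -/
def NearAlgebraic (d : ℕ) (y w X : ℝ) : Prop := ∃ (α : ℂ) (P : ℤ[X]), Irreducible P ∧ P.natDegree ≤ d ∧
  (∀ i, |(P.coeff i : ℝ)| ≤ X) ∧ aeval α P = 0 ∧ ‖(y : ℂ) - α‖ ≤ X ^ (-w)

/-- the logarithms `x` of the scales at which one of the numbers `t z ^ k`, `k ∈ K`, is near an algebraic number -/
def logScales (d : ℕ) (z t : ℝ) (K : Finset ℤ) (w : ℝ) : Set ℝ :=
  {x | ∃ k ∈ K, NearAlgebraic d (t * z ^ k) w (exp x)}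

/-- the lower density of a set of positive real numbers; for the set of the logarithms of the elements
of a set of scales it is the lower logarithmic density of the set of scales -/
noncomputable def lowerDensity (S : Set ℝ) : ℝ :=
  liminf (fun T : ℝ => (volume (S ∩ Set.Icc 0 T)).toReal / T) atTop

/-- the growth rate `u` -/
noncomputable def rate (A : ℝ) (n d : ℕ) : ℝ := (A / d) ^ (1 / ((n : ℝ) - 1))

/-- the bound for the density, for `n` numbers, the degree `d` and the exponent `A` -/
noncomputable def law (A : ℝ) (n d : ℕ) (w : ℝ) : ℝ := max (A / w) ((A + (2 * A - w) / (rate A n d - 1)) / w)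

theorem polyM {z : ℝ} (h : HasMeasures z) : Pool.Agent.H595.Alg.PolyM z := by
  intro r
  obtain ⟨κ, c, hc, h1⟩ := h r
  refine ⟨max κ 0, c, le_max_right _ _, hc, fun P h0 hd H hH hP => ?_⟩
  have h2 := h1 P h0 hd H hH hP
  rw [rpow_neg (by linarith), ← div_eq_mul_inv, div_le_iff₀ (by positivity)] at h2
  have h3 : H ^ κ ≤ H ^ (max κ 0) := rpow_le_rpow_of_exponent_le hH (le_max_left _ _)
  have h4 := mul_le_mul_of_nonneg_right h3 (abs_nonneg (aeval z P))
  linarith

theorem of_polyM {z : ℝ} (h : Pool.Agent.H595.Alg.PolyM z) : HasMeasures z := by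
  intro r
  obtain ⟨κ, c, -, hc, h1⟩ := h r
  refine ⟨κ, c, hc, fun P h0 hd H hH hP => ?_⟩
  have h2 := h1 P h0 hd H hH hP
  rw [rpow_neg (by linarith), ← div_eq_mul_inv, div_le_iff₀ (by positivity)]
  linarith

theorem notAlg_iff (d : ℕ) (y : ℝ) : Pool.Agent.H595.Alg.NotAlg d y ↔ ¬ AlgebraicDeg d y := by
  rw [AlgebraicDeg, Pool.Agent.H595.Alg.NotAlg]
  push Not
  rfl

theorem logScales_eq (d : ℕ) (z t : ℝ) (K : Finset ℤ) (w : ℝ) :
    logScales d z t K w = Pool.Agent.H595.Alg.algScales d (Pool.Agent.H595.Alg.pw z t K) w := by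
  ext x
  constructor
  · rintro ⟨j, hj, h⟩
    exact ⟨⟨j, hj⟩, h⟩
  · rintro ⟨⟨j, hj⟩, h⟩
    exact ⟨j, hj, h⟩

theorem rate_gt {A : ℝ} {n d : ℕ} (hn : 2 ≤ n) (hd : 1 ≤ d) (hA : (d : ℝ) < A) : 1 < rate A n d := by
  have hd' : (1 : ℝ) ≤ d := by exact_mod_cast hd
  have hn' : (2 : ℝ) ≤ n := by exact_mod_cast hn
  apply one_lt_rpow
  · rw [one_lt_div (by linarith)]
    exact hA
  · have : 0 < (n : ℝ) - 1 := by linarith
    positivity

theorem rate_pow {A : ℝ} {n d : ℕ} (hn : 2 ≤ n) (hA : 0 ≤ A) : rate A n d ^ (n - 1) = A / d := by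
  have h2 : (n : ℝ) - 1 = ((n - 1 : ℕ) : ℝ) := by
    rw [Nat.cast_sub (by omega), Nat.cast_one]
  rw [rate, h2, one_div]
  exact rpow_inv_natCast_pow (by positivity) (by omega)

theorem law_eq (A : ℝ) (n d : ℕ) (w : ℝ) : law A n d w = Pool.Agent.H595.Alg.algLaw A (rate A n d) w := rfl

theorem density_one {z t : ℝ} {K : Finset ℤ} {d : ℕ} (h : ∃ k ∈ K, AlgebraicDeg d (t * z ^ k)) (w : ℝ) :
    lowerDensity (logScales d z t K w) = 1 := by
  obtain ⟨j, hj, h⟩ := h
  rw [logScales_eq]
  exact Pool.Agent.H595.Alg.density_one_alg (θ := Pool.Agent.H595.Alg.pw z t K) (j := ⟨j, hj⟩)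
    (fun h1 => (notAlg_iff _ _).1 h1 h) w

theorem zero_one {z : ℝ} (hz : HasMeasures z) {K : Finset ℤ} (hK : 2 ≤ K.card) {d : ℕ} (hd : 1 ≤ d) :
    ∃ A : ℝ, (d : ℝ) < A ∧ ∀ t : ℝ, t ≠ 0 → ∀ w : ℝ, A * (1 + 1 / rate A K.card d) < w →
      law A K.card d w < 1 ∧
      ((∀ k ∈ K, ¬ AlgebraicDeg d (t * z ^ k)) ↔ lowerDensity (logScales d z t K w) ≤ law A K.card d w) ∧
      ((∃ k ∈ K, AlgebraicDeg d (t * z ^ k)) ↔ lowerDensity (logScales d z t K w) = 1) := by
  have hd' : (1 : ℝ) ≤ d := by exact_mod_cast hd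
  obtain ⟨E₀, hE₀, hsep⟩ := Pool.Agent.H595.Alg.sep_family (polyM hz) d K
  obtain ⟨A, hA⟩ : ∃ A : ℝ, A = E₀ + 2 * d := ⟨_, rfl⟩
  have hA1 : 2 * (d : ℝ) ≤ A := by rw [hA]; linarith
  have hA0 : 0 < A := by linarith
  have hu := rate_gt (n := K.card) hK hd (show (d : ℝ) < A by linarith)
  refine ⟨A, by linarith, fun t ht w hw => ?_⟩
  have hl : law A K.card d w < 1 := by
    rw [law_eq]
    exact Pool.Agent.H595.Alg.algLaw_lt_one hA0 hu hw
  have upper : (∀ k ∈ K, ¬ AlgebraicDeg d (t * z ^ k)) → lowerDensity (logScales d z t K w) ≤ law A K.card d w := by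
    intro h
    have hN : ∀ j : K, Pool.Agent.H595.Alg.NotAlg d (Pool.Agent.H595.Alg.pw z t K j) := fun j =>
      (notAlg_iff _ _).2 (h j.1 j.2)
    rw [logScales_eq, law_eq]
    refine Pool.Agent.H595.Alg.alg_law hd (by linarith) (n := K.card - 1) (by rw [Fintype.card_coe]; omega) hN
      (hsep A (by rw [hA]; linarith) t ht) ?_ hu (rate_pow hK hA0.le)
    have h1 : 0 < 1 / rate A K.card d := by positivity
    nlinarith
  refine ⟨hl, ⟨upper, fun h j hj h1 => ?_⟩, ⟨fun h => density_one h w, fun h => ?_⟩⟩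
  · rw [density_one ⟨j, hj, h1⟩ w] at h
    linarith
  · by_contra h1
    push Not at h1
    have h2 := upper h1
    rw [h] at h2
    linarith

theorem transcendental_iff (y : ℝ) : Transcendental ℚ y ↔ ∀ d : ℕ, 1 ≤ d → ¬ AlgebraicDeg d y := by
  rw [Transcendental, ← IsFractionRing.isAlgebraic_iff ℤ ℚ ℝ]
  constructor
  · rintro h d - ⟨P, h0, -, h1⟩
    exact h ⟨P, h0, h1⟩
  · rintro h ⟨P, h0, h1⟩
    exact h (max 1 P.natDegree) (le_max_left _ _) ⟨P, h0, le_max_right _ _, h1⟩

/-- the criterion -/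
theorem criterion {z : ℝ} (hz : HasMeasures z) {t : ℝ} (ht : t ≠ 0) {K : Finset ℤ} (hK : 2 ≤ K.card) :
    (∀ k ∈ K, Transcendental ℚ (t * z ^ k)) ↔
      ∀ d : ℕ, 1 ≤ d → ∃ w : ℝ, lowerDensity (logScales d z t K w) < 1 := by
  constructor
  · intro h d hd
    obtain ⟨A, -, hA⟩ := zero_one hz hK hd
    have h2 := hA t ht (A * (1 + 1 / rate A K.card d) + 1) (by linarith)
    exact ⟨_, (h2.2.1.1 (fun j hj => (transcendental_iff _).1 (h j hj) d hd)).trans_lt h2.1⟩
  · intro h j hj
    rw [transcendental_iff]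
    intro d hd h1
    obtain ⟨w, hw⟩ := h d hd
    rw [density_one ⟨j, hj, h1⟩ w] at hw
    exact lt_irrefl _ hw

/-- Apéry's number -/
noncomputable def zeta3 : ℝ := ∑' n : ℕ, 1 / ((n : ℝ) + 1) ^ 3

theorem zeta3_pos : 0 < zeta3 := by
  have h1 : Summable (fun n : ℕ => 1 / ((n : ℝ) + 1) ^ 3) := by
    have h2 := (summable_nat_add_iff 1).2 (Real.summable_one_div_nat_pow.2 (show 1 < 3 by norm_num))
    simpa using h2
  have h2 := h1.sum_le_tsum (Finset.range 1) (fun n _ => by positivity)
  rw [Finset.sum_range_one] at h2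
  have h3 : 1 / (((0 : ℕ) : ℝ) + 1) ^ 3 = 1 := by norm_num
  rw [h3] at h2
  exact lt_of_lt_of_le one_pos h2

/-- the case of `ζ(3)` and `ζ(3) / π ^ 3` -/
theorem zeta_case : (Transcendental ℚ zeta3 ∧ Transcendental ℚ (zeta3 / π ^ 3)) ↔
    ∀ d : ℕ, 1 ≤ d → ∃ w : ℝ, lowerDensity {x : ℝ | NearAlgebraic d zeta3 w (exp x) ∨
      NearAlgebraic d (zeta3 / π ^ 3) w (exp x)} < 1 := by
  have h := criterion (of_polyM Pool.Agent.H595.Alg.polyM_pi) (t := zeta3) zeta3_pos.ne' (K := {0, -3}) (by decide)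
  have e0 : zeta3 * π ^ (0 : ℤ) = zeta3 := by rw [zpow_zero, mul_one]
  have e1 : zeta3 * π ^ (-3 : ℤ) = zeta3 / π ^ 3 := by
    rw [zpow_neg, div_eq_mul_inv]
    norm_cast
  have e2 : ∀ d w, logScales d π zeta3 {0, -3} w = {x : ℝ | NearAlgebraic d zeta3 w (exp x) ∨
      NearAlgebraic d (zeta3 / π ^ 3) w (exp x)} := by
    intro d w
    ext x
    simp only [logScales, Finset.mem_insert, Finset.mem_singleton, exists_eq_or_imp, exists_eq_left, e0, e1,
      Set.mem_setOf_eq]
  simp only [Finset.mem_insert, Finset.mem_singleton, forall_eq_or_imp, forall_eq, e0, e1, e2] at h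
  exact h

theorem result :
    -- (1) the zero-one law, uniform in `t`
    (∀ z : ℝ, HasMeasures z → ∀ K : Finset ℤ, 2 ≤ K.card → ∀ d : ℕ, 1 ≤ d →
      ∃ A : ℝ, (d : ℝ) < A ∧ ∀ t : ℝ, t ≠ 0 → ∀ w : ℝ, A * (1 + 1 / rate A K.card d) < w →
        law A K.card d w < 1 ∧
        ((∀ k ∈ K, ¬ AlgebraicDeg d (t * z ^ k)) ↔ lowerDensity (logScales d z t K w) ≤ law A K.card d w) ∧
        ((∃ k ∈ K, AlgebraicDeg d (t * z ^ k)) ↔ lowerDensity (logScales d z t K w) = 1)) ∧
    -- (2) `π` is a possible value of `z`; the criterion for the transcendence of `ζ(3)` and `ζ(3) / π ^ 3`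
    (HasMeasures π ∧ ((Transcendental ℚ zeta3 ∧ Transcendental ℚ (zeta3 / π ^ 3)) ↔
      ∀ d : ℕ, 1 ≤ d → ∃ w : ℝ, lowerDensity {x : ℝ | NearAlgebraic d zeta3 w (exp x) ∨
        NearAlgebraic d (zeta3 / π ^ 3) w (exp x)} < 1)) ∧
    -- (3) the order of the bound is right
    (∀ z : ℝ, HasMeasures z → ∀ K : Finset ℤ, 2 ≤ K.card → ∀ a b : ℝ, 0 < a → a < b → ∃ t : ℝ, a < t ∧ t < b ∧
      (∀ k : ℤ, Transcendental ℚ (t * z ^ k)) ∧
      ∀ d : ℕ, 1 ≤ d → ∀ w : ℝ, 2 ≤ w → 2 / w ≤ lowerDensity (logScales d z t K w)) ∧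
    -- (4) the bound for large exponents
    (∀ (A : ℝ) (n d : ℕ), 2 ≤ n → 1 ≤ d → (d : ℝ) < A → ∀ w : ℝ, 2 * A ≤ w → law A n d w = A / w) := by
  refine ⟨fun z hz K hK d hd => zero_one hz hK hd, ⟨of_polyM Pool.Agent.H595.Alg.polyM_pi, zeta_case⟩,
    fun z hz K hK a b ha hab => ?_, fun A n d hn hd hA w hw => ?_⟩
  · obtain ⟨t, h1, h2, h3, h4⟩ := Pool.Agent.H595.Alg.exists_pow (polyM hz) hK ha hab
    refine ⟨t, h1, h2, fun k => ?_, fun d hd w hw => ?_⟩
    · rw [transcendental_iff]
      intro d _ h5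
      exact (notAlg_iff _ _).1 (h3 d k) h5
    · rw [logScales_eq]
      exact h4 d hd w hw
  · have hd' : (1 : ℝ) ≤ d := by exact_mod_cast hd
    rw [law_eq]
    exact Pool.Agent.H595.Alg.algLaw_high (rate_gt hn hd hA) (by linarith) hw

end Pool.Agent.Results.MP_e48a95_nt.DensityNearAlgebraic
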