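import Pool.Agent.H410.QM.Main

/-!
# The Erdos-Borwein constant is not a quadratic number, with a measure

For every integer `p` with `|p| ≥ 2` there is a constant `C` such that
`|a E^2 + b E + c| ≥ exp(-C (log H)^{3/2})`, `E = ∑_{n ≥ 1} 1/(p^n - 1)`, for all integers `a, b, c`,
not all `0`, of absolute value at most `H` (`H ≥ 2`). In particular `E` is not algebraic of degree at
most `2`. For `p = 2` this is the Erdos-Borwein constant `1.60669…`, and `E - 1/2` is the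
`q`-analogue `γ(2)` of Euler's constant (Kurokawa and Wakayama).

Outline (`Pool/Agent/H410/NQ/Stm.lean` and `Pool/Agent/H410/QM/Stm.lean` have every step). Put
`A_z(k,J) = p^{kJ}(z - ∑_{l ≤ k} 1/(p^l-1)) - ∑_{1 ≤ e ≤ J} p^{k(J-e)}/(p^e-1)`, so that
`A_E(k,J) = ∑_{t ≥ 1} p^{-t(J+1)}/(p^k-p^{-t})` is small. The determinant of `A_z(k,j+1)`,
`0 ≤ k, j < N = 2n`, is at `z = E` of size `|p|^{-N^3/2}` and, by positivity, not smaller than
`|p|^{-CN^3}`, so it does not vanish for `z` very close to `E`; at a conjugate `z'` it is at most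
`H^N |p|^{N^3/3}`. Transforming rows and columns by the polynomials `∏_{l<i} (T - p^l)` shows that
its denominator divides `∏_{d ≤ N} Φ_d(p)^{2 min(d,N+1-d)}`, of size `|p|^{(3/(2π²)) N^3}`, and
transforming the rows by `∏_{l<s} (T - p^l)^2` shows that it is divisible by `p^{N^3/12}`. The
product formula for `ℚ(z)` gives a contradiction if `z` is a root of `aX^2+bX+c` closer to `E` than
`|p|^{-CN^3}`, `N ≈ C √(log H)`: `1/2 - 1/3 + 2/12 > 2 · 3/(2π²)`.
-/

namespace Pool.Agent.Results.MP_e48a95_nt.ErdosBorweinNotQuadratic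

theorem result : ∀ p : ℤ, 2 ≤ |p| → ∃ C : ℝ, 0 < C ∧ ∀ (H : ℝ) (a b c : ℤ), 2 ≤ H →
    |(a : ℝ)| ≤ H → |(b : ℝ)| ≤ H → |(c : ℝ)| ≤ H → (a ≠ 0 ∨ b ≠ 0 ∨ c ≠ 0) →
    Real.exp (-(C * Real.log H ^ (3 / 2 : ℝ))) ≤
      |a * (∑' n : ℕ, 1 / ((p : ℝ) ^ (n + 1) - 1)) ^ 2 +
        b * (∑' n : ℕ, 1 / ((p : ℝ) ^ (n + 1) - 1)) + c| :=
  fun p hp => Pool.Agent.H410.QM.main p hp

end Pool.Agent.Results.MP_e48a95_nt.ErdosBorweinNotQuadratic
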