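import Pool.Agent.H488.E.Cst

/-!
# Euler's constant, zeta values, logarithms and Gompertz numbers at every scale

Let `W` be the ring which is generated by the algebraic numbers, the numbers `e^b`, `b` algebraic, and
the iterated integrals from `0` to `1` of words in the forms `dt/t` and `(e^(a t) - 1) dt/t`, `a`
algebraic (`iterated`), for example the numbers `∑ a^n / (n! n^l)`.

(1) **A quantitative theorem of Siegel and Shidlovskii for `W`.** Finitely many algebraically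
independent numbers `w` of `W` have a measure of algebraic independence: for every degree `d` there
are `κ` and `c > 0` with `|P(w)| ≥ c H^(-κ)` for all nonzero integer polynomials `P` of degree at most
`d` in each variable and with coefficients of absolute value at most `H`.

Let `γ` be Euler's constant, `δ_l(α) = ∫_0^∞ Log (1 + s/α)^l e^(-s) ds` for `α` not in `(-∞, 0]`
(`δ_1(1)` is the constant of Euler and Gompertz), and for `k ≥ 2` let
`T_k(x) = e^(-x) ∑_j (x^j / j!) ∑_(i > j) 1/i^k` be the Poisson mean of the tails of `ζ(k)`. Let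
`β_1, …, β_n` be algebraic numbers which are linearly independent over `ℚ`, and `η_j = e^(β_j)`. A
number `u` is near at the scale `H` if `|P(u, η)| ≤ H^(-w)` for some nonzero integer polynomial `P` of
degree at most `d` in each variable and with coefficients of absolute value at most `H`.

(2) Let `y_1, …, y_s` be ANY complex numbers such that `γ + Log α_i` and `ζ(m)`, `m ≤ l_i`, are
polynomials in `y` with rational coefficients, as well as the `ζ(k_i)`. Then the numbers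
`y_1, …, y_s, δ_(l_i)(α_i), T_(k_i)(x_i)` obey the following laws (finitely many different pairs of
positive integers `l_i` and algebraic `α_i` with integral coordinates with respect to `β`, and
finitely many different pairs `(k_i, x_i)`, `x_i` algebraic with `x_i + x_j ≠ 0`).
* Joint measure: for any `s + 1` of the numbers `u_i` and nonzero polynomials `P_i` of height at most
  `H` one has `max |P_i(u_i, η)| ≥ c H^(-κ)`.
* So at every large scale at most `s` of them are near. The dichotomy of scales: let exactly `s` be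
  near at the large scale `H`. Either they are algebraic over `ℚ(η)`, and then no other one is near at
  any later scale; or there is `Z ≥ H` such that no other one is near between `H` and `Z`, and fewer
  than `s` are near at all scales between `Z` and `Z^A`.
* The zero-one law: at least `s` of the numbers are algebraic of degree at most `d` over `ℚ(η)` if
  and only if at all large scales at least `s` of them are near.

(3) In particular this holds, with `s = c + m + 2`, for the numbers `γ`, `π`, `ζ(2j+3) / π^(e_j)`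
(`0 ≤ j < c`, any `e_j ≥ 0`; for instance `ζ(3)`, or `ζ(3)/π³`), `Log b_1, …, Log b_m` (any nonzero
numbers `b_j`) together with all `δ_l(α)`, `l ≤ 2 c + 2`, for which some power of `α` is in the group
generated by the `b_j`, and all `T_k(x)`, `k ≤ 2 c + 2`.

The proof of (1): Shidlovskii's theorem with a measure for number fields (`Pool.Graph`, N743) for the
differential systems of the iterated integrals, and a descent from the algebraic numbers by means of
norms. (2) and (3) follow with the transfer principle of `Pool.Agent.H596.U` and derivations.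
-/

set_option autoImplicit false

namespace Pool.Agent.Results.MP_e48a95_nt.EulerZetaGompertzAtEveryScale

/-- the nonzero integer polynomials in the variables `σ`, of degree at most `d` in every variable,
with coefficients of absolute value at most `H` -/
def Poly (σ : Type) (d : ℕ) (H : ℝ) : Set (MvPolynomial σ ℤ) :=
  {P | P ≠ 0 ∧ (∀ i, P.degreeOf i ≤ d) ∧ ∀ m, |((P.coeff m : ℤ) : ℝ)| ≤ H}

/-- The numbers `x i` have a measure of algebraic independence, polynomial in the height for every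
degree. -/
def HasMeasure {σ : Type} (x : σ → ℂ) : Prop :=
  ∀ d : ℕ, ∃ κ : ℕ, ∃ c : ℝ, 0 < c ∧ ∀ H : ℝ, 1 ≤ H → ∀ P ∈ Poly σ d H,
    c / H ^ κ ≤ ‖MvPolynomial.aeval x P‖

/-- the iterated integral from `0` to `t` of the word `w`; the letter `a ≠ 0` stands for the form
`(e^(a s) - 1) ds / s` and the letter `0` for the form `ds / s` -/
noncomputable def iterated : List ℂ → ℝ → ℂ
  | [], _ => 1
  | a :: v, t => ∫ s in (0 : ℝ)..t, (if a = 0 then 1 else Complex.exp (a * s) - 1) * iterated v s / s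

/-- the ring generated by the algebraic numbers, the numbers `e^b`, `b` algebraic, and the iterated
integrals from `0` to `1` of the words with algebraic letters, the last of which is not zero -/
def W : Subring ℂ :=
  Subring.closure ({z | IsAlgebraic ℚ z} ∪ {z | ∃ b : ℂ, IsAlgebraic ℚ b ∧ z = Complex.exp b} ∪
    {z | ∃ w : List ℂ, (∀ a ∈ w, IsAlgebraic ℚ a) ∧ (∀ h : w ≠ [], w.getLast h ≠ 0) ∧
      z = iterated w 1})

/-- the value `P(u, η_1, …, η_n)`; the variable `none` stands for `u` -/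
noncomputable def value {n : ℕ} (η : Fin n → ℂ) (u : ℂ) (P : MvPolynomial (Option (Fin n)) ℤ) : ℂ :=
  MvPolynomial.aeval (fun o : Option (Fin n) => o.elim u η) P

/-- the indices of the numbers `u i` which are near at the scale `H` -/
def near {n : ℕ} {ι : Type} (η : Fin n → ℂ) (d w : ℕ) (u : ι → ℂ) (H : ℝ) : Set ι :=
  {i | ∃ P ∈ Poly (Option (Fin n)) d H, ‖value η (u i) P‖ ≤ 1 / H ^ w}

/-- `x` is a zero of a nonzero polynomial of degree at most `d` in every variable -/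
def Alg {n : ℕ} (η : Fin n → ℂ) (d : ℕ) (x : ℂ) : Prop :=
  ∃ P : MvPolynomial (Option (Fin n)) ℤ, P ≠ 0 ∧ (∀ o, P.degreeOf o ≤ d) ∧ value η x P = 0

/-- the joint measure of any `s + 1` of the numbers `u i` -/
def JointMeasure {n : ℕ} {ι : Type} (s : ℕ) (η : Fin n → ℂ) (d κ : ℕ) (u : ι → ℂ) : Prop :=
  ∃ c : ℝ, 0 < c ∧ ∀ S : Finset ι, S.card = s + 1 → ∀ H : ℝ, 1 ≤ H →
    ∀ P : ι → MvPolynomial (Option (Fin n)) ℤ, (∀ i ∈ S, P i ∈ Poly (Option (Fin n)) d H) →
      ∃ i ∈ S, c / H ^ κ ≤ ‖value η (u i) (P i)‖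

/-- the dichotomy of scales and the zero-one law -/
def Law {n : ℕ} {ι : Type} (s : ℕ) (η : Fin n → ℂ) (d w A : ℕ) (u : ι → ℂ) : Prop :=
  (∃ H₀ : ℝ, ∀ H : ℝ, H₀ ≤ H → (near η d w u H).ncard ≤ s ∧ ((near η d w u H).ncard = s →
    ((∀ i ∈ near η d w u H, Alg η d (u i)) ∧
      ∀ Y : ℝ, H ≤ Y → near η d w u Y ⊆ near η d w u H) ∨
    ∃ Z : ℝ, H ≤ Z ∧ (∀ Y : ℝ, H ≤ Y → Y ≤ Z → near η d w u Y ⊆ near η d w u H) ∧
      ∀ Y : ℝ, Z < Y → Y ≤ Z ^ A → (near η d w u Y).ncard < s)) ∧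
  ((∃ S : Finset ι, S.card = s ∧ ∀ i ∈ S, Alg η d (u i)) ↔
    ∃ H₁ : ℝ, ∀ H : ℝ, H₁ ≤ H → s ≤ (near η d w u H).ncard)

/-- joint measure and law for every degree -/
def Laws {n : ℕ} {ι : Type} (s : ℕ) (η : Fin n → ℂ) (u : ι → ℂ) : Prop :=
  ∀ d : ℕ, (∃ κ : ℕ, JointMeasure s η d κ u) ∧ ∀ A : ℕ, 2 ≤ A → ∃ w : ℕ, Law s η d w A u

/-- the Gompertz numbers `δ_l(α)` -/
noncomputable def gompertz (l : ℕ) (α : ℂ) : ℂ :=
  ∫ s in Set.Ioi (0 : ℝ), Complex.log (1 + s / α) ^ l * (Real.exp (-s) : ℝ)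

/-- the Poisson mean `T_k(x)` of the tails of `ζ(k)` -/
noncomputable def tailMean (k : ℕ) (x : ℂ) : ℂ :=
  Complex.exp (-x) * ∑' j : ℕ, x ^ j / j.factorial * ∑' i : ℕ, 1 / ((i : ℂ) + j + 1) ^ k

/-- the exponentials `e^(β_j)` -/
noncomputable def exps {n : ℕ} (β : Fin n → ℂ) : Fin n → ℂ := fun j => Complex.exp (β j)

/-- `γ`, `π`, `ζ(2j+3) / π^(e_j)` and `Log b_j` -/
noncomputable def constants {c m : ℕ} (e : Fin c → ℕ) (b : Fin m → ℂ) :
    Fin 2 ⊕ (Fin c ⊕ Fin m) → ℂ :=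
  Sum.elim ![(Real.eulerMascheroniConstant : ℂ), (Real.pi : ℂ)]
    (Sum.elim (fun j => riemannZeta ((2 * (j : ℕ) + 3 : ℕ) : ℂ) / (Real.pi : ℂ) ^ e j)
      fun j => Complex.log (b j))

/-- different algebraic arguments `α_i`, not in `(-∞, 0]`, with integral coordinates with respect
to `β`, and positive integers `l_i` -/
def GompertzData {n a : ℕ} (β : Fin n → ℂ) (l : Fin a → ℕ) (α : Fin a → ℂ) : Prop :=
  (∀ i, 1 ≤ l i) ∧ (∀ i, IsAlgebraic ℚ (α i) ∧ α i ∈ Complex.slitPlane) ∧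
    (Function.Injective fun i => (l i, α i)) ∧ ∀ i, ∃ r : Fin n → ℤ, α i = ∑ j, (r j : ℂ) * β j

/-- different algebraic arguments `x_i` and integers `k_i ≥ 2` -/
def TailData {t : ℕ} (k : Fin t → ℕ) (x : Fin t → ℂ) : Prop :=
  (∀ i, 2 ≤ k i) ∧ (∀ i, IsAlgebraic ℚ (x i)) ∧ (∀ i j, x i + x j ≠ 0) ∧
    Function.Injective fun i => (k i, x i)

open Pool.Agent.H488.M (Bd Meas vl)

lemma hasMeasure_iff {σ : Type} (x : σ → ℂ) : HasMeasure x ↔ Meas x := by
  constructor
  · intro h d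
    obtain ⟨κ, c, hc, h⟩ := h d
    refine ⟨κ, c, hc, fun P hP H hH hB => ?_⟩
    have h1 := h H hH P ⟨hP, hB.1, hB.2⟩
    rwa [div_le_iff₀ (by positivity), mul_comm] at h1
  · intro h d
    obtain ⟨κ, c, hc, h⟩ := h d
    refine ⟨κ, c, hc, fun H hH P hP => ?_⟩
    have h1 := h P hP.1 H hH ⟨hP.2.1, hP.2.2⟩
    rwa [div_le_iff₀ (by positivity), mul_comm]

lemma iterated_eq (w : List ℂ) : ∀ t : ℝ, iterated w t = Pool.Agent.N902.EW.II w t := by
  induction w with
  | nil => intro t; rfl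
  | cons a v ih =>
    intro t
    rw [iterated, Pool.Agent.N902.EW.II]
    simp only [ih]

lemma mem_W {z : ℂ} (hz : z ∈ W) : z ∈ (Pool.Agent.N902.EW.evA Pool.Agent.N902.EW.io).range := by
  suffices h : W ≤ (Pool.Agent.N902.EW.evA Pool.Agent.N902.EW.io).range from h hz
  refine Subring.closure_le.2 ?_
  rintro z ((hz | ⟨b, hb, rfl⟩) | ⟨w, hw, hw', rfl⟩)
  · obtain ⟨c, rfl⟩ := Pool.Agent.N902.EW.mem_range_io hz
    exact ⟨_, Pool.Agent.N902.EW.evA_algebraMap c⟩
  · obtain ⟨b', rfl⟩ := Pool.Agent.N902.EW.mem_range_io hb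
    refine ⟨Pool.Agent.N902.EW.mk b' [] Pool.Agent.N902.EW.adm_nil, ?_⟩
    rw [Pool.Agent.N902.EW.evA_mk, Pool.Agent.N902.EW.evk_ex, Pool.Agent.N902.EW.U_nil,
      Pool.Agent.N902.EW.evk_one, mul_one]
  · obtain ⟨v, rfl, hv⟩ := Pool.Agent.N902.EW.exists_word (w := w) ⟨hw, hw'⟩
    refine ⟨Pool.Agent.N902.EW.mk 0 v hv, ?_⟩
    rw [Pool.Agent.N902.EW.evA_mk, Pool.Agent.N902.EW.evk_ex_zero, one_mul, iterated_eq,
      Pool.Agent.N902.EW.II_one v hv]

/-- (1) -/
theorem measure_W {n : ℕ} (w : Fin n → ℂ) (hw : ∀ i, w i ∈ W) (h : AlgebraicIndependent ℚ w) :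
    HasMeasure w :=
  (hasMeasure_iff w).2 (Pool.Agent.H488.E.meas_range w (fun i => mem_W (hw i)) h)

lemma near_eq {n : ℕ} {ι : Type} [Fintype ι] (η : Fin n → ℂ) (u : ι → ℂ) (d w : ℕ) (H : ℝ) :
    near η d w u H = Pool.Agent.H488.E.Nr η u d w H := by
  ext i
  constructor
  · rintro ⟨P, hP, h⟩
    exact ⟨P, hP.1, ⟨hP.2.1, hP.2.2⟩, h⟩
  · rintro ⟨P, hP, hB, h⟩
    exact ⟨P, ⟨hP, hB.1, hB.2⟩, h⟩

/-- the joint measure -/
theorem joint_of {n : ℕ} {ι : Type} [Fintype ι] (s : ℕ) (η : Fin n → ℂ) (u : ι → ℂ) (d : ℕ)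
    (h : ∃ (k₁ : ℕ) (h₁ : ℝ), 1 ≤ h₁ ∧ Pool.Agent.H488.E.Jm s η u d k₁ h₁) :
    ∃ κ : ℕ, JointMeasure s η d κ u := by
  obtain ⟨κ, H₀, hH₀, h⟩ := h
  refine ⟨κ, 1 / H₀ ^ κ, by positivity, fun S hS H hH P hP => ?_⟩
  rcases le_total H₀ H with h1 | h1
  · obtain ⟨i, hi, h2⟩ := h H h1 S hS P fun i hi => ⟨(hP i hi).1, (hP i hi).2.1, (hP i hi).2.2⟩
    refine ⟨i, hi, ?_⟩
    rw [div_le_iff₀ (by positivity), mul_comm]
    refine le_trans ?_ h2.le
    rw [div_le_one (by positivity)]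
    exact one_le_pow₀ hH₀
  · obtain ⟨i, hi, h2⟩ := h H₀ le_rfl S hS P
      fun i hi => ⟨(hP i hi).1, (hP i hi).2.1, fun l => ((hP i hi).2.2 l).trans h1⟩
    refine ⟨i, hi, ?_⟩
    have h3 : 1 / H₀ ^ κ / H ^ κ ≤ 1 / H₀ ^ κ :=
      div_le_self (by positivity) (one_le_pow₀ hH)
    refine h3.trans ?_
    rw [div_le_iff₀ (by positivity), mul_comm]
    exact h2.le

/-- the dichotomy and the zero-one law -/
theorem law_of {n : ℕ} {ι : Type} [Fintype ι] (s : ℕ) (η : Fin n → ℂ) (hη : HasMeasure η)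
    (u : ι → ℂ) (d : ℕ) (h : ∃ (k₁ : ℕ) (h₁ : ℝ), 1 ≤ h₁ ∧ Pool.Agent.H488.E.Jm s η u d k₁ h₁)
    (A : ℕ) (hA : 2 ≤ A) : ∃ w : ℕ, Law s η d w A u := by
  classical
  obtain ⟨k₁, h₁, hh₁, hj⟩ := h
  obtain ⟨w, h⟩ := Pool.Agent.H488.E.dichA (ι := ι) s η ((hasMeasure_iff _).1 hη) d A k₁
  obtain ⟨H₀, hH₀, h⟩ := h u h₁ hh₁ hj
  refine ⟨w, ?_⟩
  obtain ⟨N, hN⟩ : ∃ N : ℝ → Set ι, N = fun H => near η d w u H := ⟨_, rfl⟩
  have hN' : ∀ H, near η d w u H = N H := fun H => by rw [hN]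
  have hNe : ∀ H, Pool.Agent.H488.E.Nr η u d w H = N H := fun H => by rw [← hN', near_eq]
  have hd : ∀ H : ℝ, H₀ ≤ H → (N H).ncard ≤ s ∧ ((N H).ncard = s →
      ((∀ i ∈ N H, Alg η d (u i)) ∧
        ∀ Y : ℝ, H ≤ Y → N Y ⊆ N H) ∨
      ∃ Z : ℝ, H ≤ Z ∧ (∀ Y : ℝ, H ≤ Y → Y ≤ Z → N Y ⊆ N H) ∧
        ∀ Y : ℝ, Z < Y → Y ≤ Z ^ A → (N Y).ncard < s) := by
    intro H hH
    have h1 := h H hH
    simp only [hNe] at h1
    exact h1
  unfold Law
  simp only [hN']
  refine ⟨⟨H₀, hd⟩, ?_, ?_⟩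
  · rintro ⟨S, hS, hal⟩
    have hch : ∀ i, ∃ h₁ : ℝ, i ∈ S → ∀ H : ℝ, h₁ ≤ H → i ∈ N H := by
      intro i
      by_cases hi : i ∈ S
      · obtain ⟨P, hP, hPd, hPv⟩ := hal i hi
        refine ⟨max 1 (∑ l ∈ P.support, |((P.coeff l : ℤ) : ℝ)|), fun _ H hH => ?_⟩
        rw [hN]
        refine ⟨P, ⟨hP, hPd, fun l => ?_⟩, ?_⟩
        · refine le_trans ?_ ((le_max_right _ _).trans hH)
          by_cases hl : l ∈ P.support
          · exact Finset.single_le_sum (f := fun l => |((P.coeff l : ℤ) : ℝ)|)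
              (fun _ _ => abs_nonneg _) hl
          · rw [MvPolynomial.notMem_support_iff.1 hl, Int.cast_zero, abs_zero]
            exact Finset.sum_nonneg fun _ _ => abs_nonneg _
        · rw [hPv, norm_zero]
          have : 0 < H := by
            have := (le_max_left 1 (∑ l ∈ P.support, |((P.coeff l : ℤ) : ℝ)|)).trans hH
            linarith
          positivity
      · exact ⟨0, fun h => absurd h hi⟩
    choose h₁ hh₁ using hch
    refine ⟨∑ i, |h₁ i|, fun H hH => ?_⟩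
    rw [← hS, ← Set.ncard_coe_finset]
    refine Set.ncard_le_ncard fun i hi => hh₁ i hi H ?_
    exact (le_abs_self _).trans ((Finset.single_le_sum (f := fun i => |h₁ i|)
      (fun _ _ => abs_nonneg _) (Finset.mem_univ i)).trans hH)
  · rintro ⟨H₁, h1⟩
    obtain ⟨H, hH⟩ : ∃ H : ℝ, H = max (max H₀ H₁) 2 := ⟨_, rfl⟩
    have hHH₀ : H₀ ≤ H := by rw [hH]; exact (le_max_left _ _).trans (le_max_left _ _)
    have hHH₁ : H₁ ≤ H := by rw [hH]; exact (le_max_right _ _).trans (le_max_left _ _)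
    have hH2 : 2 ≤ H := by rw [hH]; exact le_max_right _ _
    have hle := h1 H hHH₁
    obtain ⟨h2, h3⟩ := hd H hHH₀
    have hcard : (N H).ncard = s := le_antisymm h2 hle
    have hfin : (N H).Finite := Set.toFinite _
    rcases h3 hcard with h4 | ⟨Z, hZ, -, h5⟩
    · refine ⟨hfin.toFinset, ?_, fun i hi => h4.1 i (by rwa [Set.Finite.mem_toFinset] at hi)⟩
      rw [← Set.ncard_eq_toFinset_card _ hfin, hcard]
    · exfalso
      have hZ2 : 2 ≤ Z := hH2.trans hZ
      have hlt : Z < Z ^ A := by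
        calc Z < Z ^ 2 := by nlinarith
          _ ≤ Z ^ A := pow_le_pow_right₀ (by linarith) hA
      have h6 := h5 (Z ^ A) hlt le_rfl
      have h7 := h1 (Z ^ A) (by linarith)
      omega

lemma laws_of {n : ℕ} {ι : Type} [Fintype ι] (s : ℕ) (β : Fin n → ℂ)
    (hβ : ∀ j, IsAlgebraic ℚ (β j)) (hβl : LinearIndependent ℚ β) (u : ι → ℂ)
    (h : ∀ d : ℕ, ∃ (k₁ : ℕ) (h₁ : ℝ), 1 ≤ h₁ ∧ Pool.Agent.H488.E.Jm s (exps β) u d k₁ h₁) :
    Laws s (exps β) u := fun d =>
  ⟨joint_of s _ u d (h d), fun A hA => law_of s _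
    ((hasMeasure_iff _).2 (Pool.Agent.H488.M.meas_exp β hβ hβl)) u d (h d) A hA⟩

/-- **Euler's constant, zeta values, logarithms and Gompertz numbers at every scale.** -/
theorem result :
    -- (1) a measure of algebraic independence for the numbers of the ring `W`
    (∀ (n : ℕ) (w : Fin n → ℂ), (∀ i, w i ∈ W) → AlgebraicIndependent ℚ w → HasMeasure w) ∧
    -- (2) any `s` numbers `y`, the Gompertz numbers and the Poisson means of the tails
    (∀ (n : ℕ) (β : Fin n → ℂ), (∀ j, IsAlgebraic ℚ (β j)) → LinearIndependent ℚ β →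
      ∀ (a t : ℕ) (l : Fin a → ℕ) (α : Fin a → ℂ) (k : Fin t → ℕ) (x : Fin t → ℂ),
      GompertzData β l α → TailData k x → ∀ (s : ℕ) (y : Fin s → ℂ),
      (∀ i, (Real.eulerMascheroniConstant : ℂ) + Complex.log (α i) ∈
        Algebra.adjoin ℚ (Set.range y)) →
      (∀ i, ∀ m : ℕ, 2 ≤ m → m ≤ l i → riemannZeta m ∈ Algebra.adjoin ℚ (Set.range y)) →
      (∀ i, riemannZeta (k i) ∈ Algebra.adjoin ℚ (Set.range y)) →
      Laws s (exps β) (Sum.elim y (Sum.elim (fun i => gompertz (l i) (α i))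
        fun i => tailMean (k i) (x i)))) ∧
    -- (3) Euler's constant, `π`, odd zeta values over powers of `π`, logarithms
    (∀ (n : ℕ) (β : Fin n → ℂ), (∀ j, IsAlgebraic ℚ (β j)) → LinearIndependent ℚ β →
      ∀ (a t : ℕ) (l : Fin a → ℕ) (α : Fin a → ℂ) (k : Fin t → ℕ) (x : Fin t → ℂ),
      GompertzData β l α → TailData k x → ∀ (c m : ℕ) (e : Fin c → ℕ) (b : Fin m → ℂ),
      (∀ j, b j ≠ 0) → (∀ i, l i ≤ 2 * c + 2) → (∀ i, k i ≤ 2 * c + 2) →
      (∀ i, ∃ N : ℕ, N ≠ 0 ∧ ∃ r : Fin m → ℤ, α i ^ N = ∏ j, b j ^ r j) →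
      Laws (c + m + 2) (exps β) (Sum.elim (constants e b)
        (Sum.elim (fun i => gompertz (l i) (α i)) fun i => tailMean (k i) (x i)))) := by
  refine ⟨fun n w hw h => measure_W w hw h, ?_, ?_⟩
  · intro n β hβ hβl a t l α k x hG hT s y hy1 hy2 hy3
    obtain ⟨hl, hα, hlα, hr⟩ := hG
    obtain ⟨hk, hx, hx2, hkx⟩ := hT
    choose r hr using hr
    refine laws_of s β hβ hβl _ fun d => ?_
    obtain ⟨k₁, h₁, hh₁, h⟩ := Pool.Agent.H488.E.jm_names y l α k x β hl hα hlα hk hx hx2 hkx hβ hβl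
      hy1 hy2 hy3 r hr d
    rw [Fintype.card_fin] at h
    exact ⟨k₁, h₁, hh₁, h⟩
  · intro n β hβ hβl a t l α k x hG hT c m e b hb hl2 hk2 hα2
    obtain ⟨hl, hα, hlα, hr⟩ := hG
    obtain ⟨hk, hx, hx2, hkx⟩ := hT
    choose r hr using hr
    refine laws_of _ β hβ hβl _ fun d => ?_
    obtain ⟨k₁, h₁, hh₁, h⟩ := Pool.Agent.H488.E.jm_con (e := e) hb l α k x β
      (fun i => ⟨hl i, hl2 i⟩) (fun i => ⟨(hα i).1, (hα i).2, hα2 i⟩) hlα (fun i => ⟨hk i, hk2 i⟩)
      hx hx2 hkx hβ hβl r hr d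
    exact ⟨k₁, h₁, hh₁, h⟩

end Pool.Agent.Results.MP_e48a95_nt.EulerZetaGompertzAtEveryScale
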