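import Pool.Agent.H410.QE.Main

/-!
# The `q`-analogue of Euler's constant is not in `ℚ + ℚ ζ_q(2) + ℚ ζ_q(3)`

For every integer `p` with `|p| ≥ 2` there is a constant `C` such that
`|b₀ + b₁ ζ_q(1) + b₂ ζ_q(2) + b₃ ζ_q(3)| ≥ exp(-C (log H)^2)` for all integers `b_i` of absolute value
at most `H` (`H ≥ 2`) with `b₁ ≠ 0`, where `q = 1/p` and
`ζ_q(s) = ∑ n^{s-1}/(p^n-1)`, `s = 1, 2, 3` (`n ≥ 1`).

Outline (`Stm.lean` in `Pool/Agent/H410/QL` and `Pool/Agent/H410/QE` have every step). Let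
`W(x) = w₀ + w₁ x + w₂ x²`, `c_e = W(e)/(p^e-1)`, `Z = ∑ c_e` and
`A_z(k,J) = p^{kJ}(z - H_k) - ∑_{e ≤ J} p^{k(J-e)} c_e` with the rational number `H_k` for which
`A_Z(k,J) = ∑_{e ≥ 1} p^{-ke} c_{e+J}`. By interpolation at triple zeros the determinant of
`A_z(k,j+1)`, `0 ≤ k, j < N = 2n+1`, is at most `|p|^{-(5/18) N^3 + O(N^2)}` for `z` close to `Z`. For
an integer `z` transformations of the rows and columns by the polynomials `∏_{l<i} (T - p^l)` show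
that it is a rational number whose denominator divides a product of values `Φ_d(p)` of size
`|p|^{(7/12) κ N^3}`, `κ = 6/π²`; here `κ < 0.6184` is used. Transforming the rows by
`∏_{l<i} (T - p^l)^2` shows that it is divisible by `p^{N^3/12}`. As `5/18 + 1/12 > (7/12) κ` this
contradicts `z` very close to `Z`, if the determinant is not `0`: for `n + 1 = T` prime this follows
from the pole order of the entries at a prime `ℓ` for which `p` has order `T`.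
-/

namespace Pool.Agent.Results.MP_e48a95_nt.QEulerNotInSpan

theorem result :
    ∀ p : ℤ, 2 ≤ |p| → ∃ C : ℝ, 0 < C ∧ ∀ (H : ℝ) (b₀ b₁ b₂ b₃ : ℤ), 2 ≤ H →
      |(b₀ : ℝ)| ≤ H → |(b₁ : ℝ)| ≤ H → |(b₂ : ℝ)| ≤ H → |(b₃ : ℝ)| ≤ H → b₁ ≠ 0 →
      Real.exp (-(C * Real.log H ^ 2)) ≤
        |b₀ + b₁ * (∑' n : ℕ, 1 / ((p : ℝ) ^ (n + 1) - 1)) +
          b₂ * (∑' n : ℕ, ((n : ℝ) + 1) / ((p : ℝ) ^ (n + 1) - 1)) +
          b₃ * (∑' n : ℕ, ((n : ℝ) + 1) ^ 2 / ((p : ℝ) ^ (n + 1) - 1))| := by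
  intro p hp
  obtain ⟨C, hC, h⟩ := Pool.Agent.H410.QE.main p hp
  refine ⟨C, hC, fun H b₀ b₁ b₂ b₃ hH h0 h1 h2 h3 hne => ?_⟩
  refine h H b₀ ![b₁, b₂, b₃] hH (by
    intro i
    fin_cases i
    · exact h1
    · exact h2
    · exact h3) (Or.inr fun e => hne (congrFun e 0))

end Pool.Agent.Results.MP_e48a95_nt.QEulerNotInSpan
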